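import Pool.Agent.Helper580.IsingPeierls
import Pool.Agent.Helper580.IsingCheb
import Pool.Agent.Helper580.IsingDyn
import Pool.Agent.Helper580.IsingConv

set_option autoImplicit false

namespace Pool.Agent.Results.MP_4cb49c_pr.RandomStart

open Finset Matrix

/-- Nearest neighbours in `ℤ^d`: the `ℓ¹` distance is one. -/
def Adj {d : ℕ} (x y : Fin d → ℤ) : Prop := ∑ i, |x i - y i| = 1

instance {d : ℕ} (x y : Fin d → ℤ) : Decidable (Adj x y) :=
  inferInstanceAs (Decidable (_ = _))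

/-- The box `{1,…,L}^d`. -/
noncomputable def box (d L : ℕ) : Finset (Fin d → ℤ) :=
  Finset.Icc (fun _ => 1) (fun _ => (L : ℤ))

/-- The centred box `{-N,…,N}^d`. -/
noncomputable def cube (d N : ℕ) : Finset (Fin d → ℤ) :=
  Finset.Icc (fun _ => -(N : ℤ)) (fun _ => (N : ℤ))

/-- The number of nearest neighbours of `x` outside `Λ`. -/
noncomputable def outside {d : ℕ} (Λ : Finset (Fin d → ℤ)) (x : Fin d → ℤ) : ℕ :=
  {y : Fin d → ℤ | Adj x y ∧ y ∉ Λ}.ncard

/-- The interaction with plus boundary condition: the sum of `σ_x σ_y` over unordered nearest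
neighbour pairs inside `Λ`, plus the sum of `σ_x` over pairs `x ∈ Λ`, `y ∉ Λ`, `x ∼ y`. -/
noncomputable def interaction {d : ℕ} (Λ : Finset (Fin d → ℤ)) (σ : Λ → ℤˣ) : ℝ :=
  (∑ x : Λ, ∑ y : Λ, if Adj x.1 y.1 then ((σ x : ℤ) : ℝ) * ((σ y : ℤ) : ℝ) else 0) / 2 +
    ∑ x : Λ, (outside Λ x.1 : ℝ) * ((σ x : ℤ) : ℝ)

/-- The Ising measure on `{-1,+1}^Λ` with plus boundary condition and zero field. -/
noncomputable def ising {d : ℕ} (Λ : Finset (Fin d → ℤ)) (β : ℝ) (σ : Λ → ℤˣ) : ℝ :=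
  Real.exp (β * interaction Λ σ) / ∑ τ : Λ → ℤˣ, Real.exp (β * interaction Λ τ)

/-- The Glauber (heat-bath) transition matrix: a uniform site `x ∈ Λ` is chosen, and the spin at `x`
is resampled from the conditional law of the Ising measure given all the other spins. -/
noncomputable def glauber {d : ℕ} (Λ : Finset (Fin d → ℤ)) (β : ℝ) :
    Matrix (Λ → ℤˣ) (Λ → ℤˣ) ℝ := fun σ η =>
  (∑ x : Λ, if ∀ y, y ≠ x → η y = σ y then
      ising Λ β η / ∑ s : ℤˣ, ising Λ β (Function.update σ x s) else 0) / Λ.card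

/-- Total variation distance of two mass functions. -/
noncomputable def tv {Ω : Type*} [Fintype Ω] (μ ν : Ω → ℝ) : ℝ := (∑ ω, |μ ω - ν ω|) / 2

/-- The mixing time from the initial law `ν`. -/
noncomputable def tmix {d : ℕ} (Λ : Finset (Fin d → ℤ)) (β : ℝ) (ν : (Λ → ℤˣ) → ℝ) : ℕ :=
  sInf {t : ℕ | tv (ν ᵥ* glauber Λ β ^ t) (ising Λ β) ≤ 1 / 4}

/-- The uniform law on configurations: independent uniform spins. -/
noncomputable def unif {d : ℕ} (Λ : Finset (Fin d → ℤ)) : (Λ → ℤˣ) → ℝ :=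
  fun _ => (1 / 2) ^ Λ.card

theorem zero_mem (d N : ℕ) : (0 : Fin d → ℤ) ∈ cube d N :=
  Pool.Agent.Helper580.IsingLat.zero_mem_cube N

/-- The expected spin at the centre of `{-N,…,N}^d` with plus boundary condition. -/
noncomputable def centreMag (d N : ℕ) (β : ℝ) : ℝ :=
  ∑ σ : cube d N → ℤˣ, ising (cube d N) β σ * ((σ ⟨0, zero_mem d N⟩ : ℤ) : ℝ)

/-- The spontaneous magnetisation. -/
noncomputable def spontaneous (d : ℕ) (β : ℝ) : ℝ := ⨅ N : ℕ, centreMag d N β

/-- The critical inverse temperature of the Ising model on `ℤ^d`. -/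
noncomputable def betaC (d : ℕ) : ℝ := sInf {β : ℝ | 0 ≤ β ∧ 0 < spontaneous d β}

/-! ### translation to sets of minus spins -/

open Pool.Agent.Helper580.IsingGKS (sgn chi chi_singleton)
open Pool.Agent.Helper580.IsingGraph (bd wt Zf E)
open Pool.Agent.Helper580.IsingLat (nb mem_nb nb_symm l1_iff card_nb_le nb_irrefl)
open Pool.Agent.Helper580.IsingCheb (pr mag bulk)
open Pool.Agent.Helper580.IsingDyn (hb Rates flip Lip)

variable {d : ℕ}

theorem adj_iff (x y : Fin d → ℤ) : Adj x y ↔ y ∈ nb x := l1_iff x y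

theorem outside_eq (Λ : Finset (Fin d → ℤ)) (x : Fin d → ℤ) :
    outside Λ x = (nb x \ Λ).card := by
  unfold outside
  rw [← Set.ncard_coe_finset]
  congr 1
  ext y
  simp only [Set.mem_ofPred_eq, adj_iff, Finset.coe_sdiff, Set.mem_sdiff, Finset.mem_coe]

/-- the set of minus spins -/
def mset {Λ : Finset (Fin d → ℤ)} (σ : Λ → ℤˣ) : Finset (Fin d → ℤ) :=
  (Finset.univ.filter (fun x : Λ => σ x = -1)).map ⟨Subtype.val, Subtype.val_injective⟩

theorem mem_mset {Λ : Finset (Fin d → ℤ)} (σ : Λ → ℤˣ) (x : Fin d → ℤ) :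
    x ∈ mset σ ↔ ∃ h : x ∈ Λ, σ ⟨x, h⟩ = -1 := by
  unfold mset
  simp only [Finset.mem_map, Finset.mem_filter, Finset.mem_univ, true_and,
    Function.Embedding.coeFn_mk, Subtype.exists, exists_and_right, exists_eq_right]

theorem mset_subset {Λ : Finset (Fin d → ℤ)} (σ : Λ → ℤˣ) : mset σ ⊆ Λ := by
  intro x hx
  rw [mem_mset] at hx
  exact hx.1

theorem spin_eq {Λ : Finset (Fin d → ℤ)} (σ : Λ → ℤˣ) (x : Λ) :
    ((σ x : ℤ) : ℝ) = sgn (mset σ) x.1 := by
  unfold sgn
  rcases Int.units_eq_one_or (σ x) with h | h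
  · rw [if_neg, h]
    · simp
    · rw [mem_mset]
      rintro ⟨_, h2⟩
      have : σ x = -1 := h2
      rw [h] at this
      exact absurd this (by decide)
  · rw [if_pos, h]
    · simp
    · rw [mem_mset]
      exact ⟨x.2, h⟩

theorem sum_config (Λ : Finset (Fin d → ℤ)) (g : Finset (Fin d → ℤ) → ℝ) :
    ∑ σ : Λ → ℤˣ, g (mset σ) = ∑ S ∈ Λ.powerset, g S := by
  refine Finset.sum_nbij' (fun σ => mset σ)
    (fun S => fun x : Λ => if x.1 ∈ S then (-1 : ℤˣ) else 1) ?_ ?_ ?_ ?_ ?_
  · intro σ _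
    exact Finset.mem_powerset.mpr (mset_subset σ)
  · intro S _
    exact Finset.mem_univ _
  · intro σ _
    funext x
    simp only [mem_mset]
    rcases Int.units_eq_one_or (σ x) with h | h
    · rw [if_neg, h]
      rintro ⟨_, h2⟩
      have : σ x = -1 := h2
      rw [h] at this
      exact absurd this (by decide)
    · rw [if_pos, h]
      exact ⟨x.2, h⟩
  · intro S hS
    ext x
    rw [mem_mset]
    constructor
    · rintro ⟨h, h2⟩
      by_contra hx
      simp only [hx, if_false] at h2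
      exact absurd h2 (by decide)
    · intro hx
      exact ⟨Finset.mem_powerset.mp hS hx, by simp only [hx, if_true]⟩
  · intro σ _; rfl

theorem interaction_eq (Λ : Finset (Fin d → ℤ)) : ∃ c : ℝ, ∀ σ : Λ → ℤˣ,
    interaction Λ σ = c - 2 * (bd nb (mset σ) : ℝ) := by
  classical
  let N' : (Fin d → ℤ) → Finset (Fin d → ℤ) := fun x => if x ∈ Λ then nb x ∩ Λ else ∅
  have hs' : ∀ x y, y ∈ N' x ↔ x ∈ N' y := by
    intro x y
    simp only [N']
    by_cases hx : x ∈ Λ <;> by_cases hy : y ∈ Λ <;> simp [hx, hy, nb_symm x y]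
  refine ⟨(∑ x ∈ Λ, ∑ y ∈ N' x, (1 : ℝ)) / 2 + ∑ x ∈ Λ, ((nb x \ Λ).card : ℝ), fun σ => ?_⟩
  set S := mset σ with hS
  have hSΛ : S ⊆ Λ := mset_subset σ
  have h1 : ∑ x : Λ, ∑ y : Λ, (if Adj x.1 y.1 then ((σ x : ℤ) : ℝ) * ((σ y : ℤ) : ℝ) else 0) =
      ∑ x ∈ Λ, ∑ y ∈ N' x, sgn S x * sgn S y := by
    have e1 : ∀ x : Λ, ∑ y : Λ, (if Adj x.1 y.1 then ((σ x : ℤ) : ℝ) * ((σ y : ℤ) : ℝ) else 0) =
        ∑ y ∈ N' x.1, sgn S x.1 * sgn S y := by
      intro x
      have e2 : N' x.1 = Λ.filter (fun y => Adj x.1 y) := by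
        simp only [N', if_pos x.2]
        ext y
        simp only [Finset.mem_inter, Finset.mem_filter, adj_iff]
        tauto
      rw [e2, Finset.sum_filter, ← Finset.sum_coe_sort Λ
        (fun y => if Adj x.1 y then sgn S x.1 * sgn S y else 0)]
      refine Finset.sum_congr rfl fun y _ => ?_
      rw [spin_eq, spin_eq]
    rw [Finset.sum_congr rfl (fun x _ => e1 x),
      Finset.sum_coe_sort Λ (fun x => ∑ y ∈ N' x, sgn S x * sgn S y)]
  have h2 : ∑ x : Λ, (outside Λ x.1 : ℝ) * ((σ x : ℤ) : ℝ) =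
      ∑ x ∈ Λ, ((nb x \ Λ).card : ℝ) * sgn S x := by
    rw [← Finset.sum_coe_sort Λ (fun x => ((nb x \ Λ).card : ℝ) * sgn S x)]
    refine Finset.sum_congr rfl fun x _ => ?_
    rw [spin_eq, outside_eq]
  have h3 := Pool.Agent.Helper580.IsingGraph.sum_bd N' hs' Λ S hSΛ (by
    intro x hx
    simp only [N', if_pos (hSΛ hx)]
    exact Finset.inter_subset_right)
  have h4 : (bd nb S : ℝ) = bd N' S + ∑ x ∈ S, ((nb x \ Λ).card : ℝ) := by
    unfold Pool.Agent.Helper580.IsingGraph.bd
    push_cast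
    rw [← Finset.sum_add_distrib]
    refine Finset.sum_congr rfl fun x hx => ?_
    have hx' := hSΛ hx
    have e : nb x \ S = (N' x \ S) ∪ (nb x \ Λ) := by
      simp only [N', if_pos hx']
      ext y
      simp only [Finset.mem_sdiff, Finset.mem_union, Finset.mem_inter]
      constructor
      · rintro ⟨a, b⟩
        by_cases hy : y ∈ Λ
        · exact Or.inl ⟨⟨a, hy⟩, b⟩
        · exact Or.inr ⟨a, hy⟩
      · rintro (⟨⟨a, _⟩, b⟩ | ⟨a, b⟩)
        · exact ⟨a, b⟩
        · exact ⟨a, fun h => b (hSΛ h)⟩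
    rw [e, Finset.card_union_of_disjoint]
    · push_cast; rfl
    · rw [Finset.disjoint_left]
      intro y hy hy2
      simp only [N', if_pos hx', Finset.mem_sdiff, Finset.mem_inter] at hy hy2
      exact hy2.2 hy.1.2
  have h5 : ∑ x ∈ S, ((nb x \ Λ).card : ℝ) =
      ∑ x ∈ Λ, ((nb x \ Λ).card : ℝ) * ((1 - sgn S x) / 2) := by
    rw [← Finset.sum_subset hSΛ (f := fun x => ((nb x \ Λ).card : ℝ) * ((1 - sgn S x) / 2))]
    · refine Finset.sum_congr rfl fun x hx => ?_
      simp only [sgn, hx, if_true]; ring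
    · intro x _ hx
      simp only [sgn, hx, if_false]; ring
  unfold interaction
  rw [h1, h2]
  have h6 : ∑ x ∈ Λ, ∑ y ∈ N' x, sgn S x * sgn S y =
      ∑ x ∈ Λ, ∑ y ∈ N' x, (1 : ℝ) - 4 * (bd N' S : ℝ) := by
    rw [← h3, ← Finset.sum_sub_distrib]
    refine Finset.sum_congr rfl fun x _ => ?_
    rw [← Finset.sum_sub_distrib]
    exact Finset.sum_congr rfl fun y _ => by ring
  have h7 : ∑ x ∈ Λ, ((nb x \ Λ).card : ℝ) * sgn S x =
      ∑ x ∈ Λ, ((nb x \ Λ).card : ℝ) - 2 * ∑ x ∈ S, ((nb x \ Λ).card : ℝ) := by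
    rw [h5, Finset.mul_sum, ← Finset.sum_sub_distrib]
    exact Finset.sum_congr rfl fun x _ => by ring
  rw [h6, h7, h4]
  ring

theorem ising_eq (Λ : Finset (Fin d → ℤ)) (β : ℝ) (σ : Λ → ℤˣ) :
    ising Λ β σ = pr Λ β (mset σ) := by
  obtain ⟨c, hc⟩ := interaction_eq Λ
  have h1 : ∀ τ : Λ → ℤˣ, Real.exp (β * interaction Λ τ) =
      Real.exp (β * c) * wt nb β (mset τ) := by
    intro τ
    rw [hc]
    unfold Pool.Agent.Helper580.IsingGraph.wt
    rw [← Real.exp_add]
    congr 1; ring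
  unfold ising Pool.Agent.Helper580.IsingCheb.pr Pool.Agent.Helper580.IsingGraph.Zf
  simp_rw [h1]
  rw [← Finset.mul_sum, mul_div_mul_left _ _ (Real.exp_pos _).ne',
    sum_config Λ (fun S => wt nb β S)]

theorem ising_pos (Λ : Finset (Fin d → ℤ)) (β : ℝ) (σ : Λ → ℤˣ) : 0 < ising Λ β σ :=
  div_pos (Real.exp_pos _) (Finset.sum_pos (fun _ _ => Real.exp_pos _) Finset.univ_nonempty)

theorem ising_sum (Λ : Finset (Fin d → ℤ)) (β : ℝ) : ∑ σ, ising Λ β σ = 1 := by
  unfold ising
  rw [← Finset.sum_div]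
  exact div_self (Finset.sum_pos (fun _ _ => Real.exp_pos _) Finset.univ_nonempty).ne'

theorem centreMag_eq (N : ℕ) (β : ℝ) :
    centreMag d N β = Pool.Agent.Helper580.IsingLat.mg d N β := by
  unfold centreMag Pool.Agent.Helper580.IsingLat.mg
  rw [Pool.Agent.Helper580.IsingCheb.E_eq]
  have : ∀ σ : cube d N → ℤˣ, ising (cube d N) β σ * ((σ ⟨0, zero_mem d N⟩ : ℤ) : ℝ) =
      (fun S => pr (cube d N) β S * chi {0} S) (mset σ) := by
    intro σ
    simp only
    rw [ising_eq, spin_eq, chi_singleton]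
  rw [Finset.sum_congr rfl (fun σ _ => this σ),
    sum_config (cube d N) (fun S => pr (cube d N) β S * chi {0} S)]
  rfl

theorem spontaneous_eq (β : ℝ) :
    spontaneous d β = Pool.Agent.Helper580.IsingLat.ms d β := by
  unfold spontaneous Pool.Agent.Helper580.IsingLat.ms
  simp_rw [centreMag_eq]

/-- the centre magnetisation decreases with the box, so the infimum is the limit -/
theorem centreMag_antitone {β : ℝ} (hβ : 0 ≤ β) : Antitone fun N : ℕ => centreMag d N β := by
  intro M N h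
  simp only [centreMag_eq]
  exact Pool.Agent.Helper580.IsingLat.mg_anti hβ h

/-- the critical point is finite: the set in its definition is not empty -/
theorem betaC_set_nonempty (hd : 2 ≤ d) : {β : ℝ | 0 ≤ β ∧ 0 < spontaneous d β}.Nonempty := by
  obtain ⟨β, h1, h2⟩ := Pool.Agent.Helper580.IsingPeierls.exists_ms_pos hd
  exact ⟨β, h1, by rw [spontaneous_eq]; exact h2⟩

theorem betaC_nonneg (d : ℕ) : 0 ≤ betaC d := Real.sInf_nonneg fun _ h => h.1

theorem spontaneous_pos (hd : 2 ≤ d) {β : ℝ} (hβ : betaC d < β) :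
    0 < Pool.Agent.Helper580.IsingLat.ms d β := by
  obtain ⟨b, ⟨hb0, hb1⟩, hb2⟩ := exists_lt_of_csInf_lt (betaC_set_nonempty hd) hβ
  rw [spontaneous_eq] at hb1
  exact lt_of_lt_of_le hb1 (Pool.Agent.Helper580.IsingLat.ms_mono hb0 hb2.le)

/-! ### the heat bath rates -/

/-- resampling probabilities -/
noncomputable def rate (Λ : Finset (Fin d → ℤ)) (β : ℝ) (x : Λ) (σ : Λ → ℤˣ) (s : ℤˣ) : ℝ :=
  ising Λ β (Function.update σ x s) / ∑ r : ℤˣ, ising Λ β (Function.update σ x r)

theorem rate_den_pos (Λ : Finset (Fin d → ℤ)) (β : ℝ) (x : Λ) (σ : Λ → ℤˣ) :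
    0 < ∑ r : ℤˣ, ising Λ β (Function.update σ x r) :=
  Finset.sum_pos (fun _ _ => ising_pos _ _ _) Finset.univ_nonempty

theorem rate_pos (Λ : Finset (Fin d → ℤ)) (β : ℝ) (x : Λ) (σ : Λ → ℤˣ) (s : ℤˣ) :
    0 < rate Λ β x σ s := div_pos (ising_pos _ _ _) (rate_den_pos _ _ _ _)

theorem rate_sum (Λ : Finset (Fin d → ℤ)) (β : ℝ) (x : Λ) (σ : Λ → ℤˣ) :
    ∑ s, rate Λ β x σ s = 1 := by
  unfold rate
  rw [← Finset.sum_div]
  exact div_self (rate_den_pos _ _ _ _).ne'

/-- the local field -/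
noncomputable def field (Λ : Finset (Fin d → ℤ)) (x : Λ) (σ : Λ → ℤˣ) : ℝ :=
  (∑ y : Λ, if Adj x.1 y.1 then ((σ y : ℤ) : ℝ) else 0) + outside Λ x.1

theorem adj_symm (x y : Fin d → ℤ) : Adj x y ↔ Adj y x := by
  rw [adj_iff, adj_iff]; exact nb_symm x y

theorem adj_irrefl (x : Fin d → ℤ) : ¬ Adj x x := by
  rw [adj_iff]; exact nb_irrefl x

/-- the interaction as a function of real vectors -/
noncomputable def quad (Λ : Finset (Fin d → ℤ)) (v : Λ → ℝ) : ℝ :=
  (∑ x : Λ, ∑ y : Λ, if Adj x.1 y.1 then v x * v y else 0) / 2 +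
    ∑ x : Λ, (outside Λ x.1 : ℝ) * v x

theorem quad_update (Λ : Finset (Fin d → ℤ)) (w : Λ → ℝ) (x : Λ) (t : ℝ) (hw : w x = 0) :
    quad Λ (fun a => w a + if a = x then t else 0) =
      quad Λ w + t * ((∑ y : Λ, if Adj x.1 y.1 then w y else 0) + outside Λ x.1) := by
  unfold quad
  have h1 : ∀ a b : Λ, (if Adj a.1 b.1 then (w a + if a = x then t else 0) *
      (w b + if b = x then t else 0) else 0) =
      (if Adj a.1 b.1 then w a * w b else 0) +
      (if a = x then t * (if Adj x.1 b.1 then w b else 0) else 0) +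
      (if b = x then t * (if Adj x.1 a.1 then w a else 0) else 0) := by
    intro a b
    by_cases ha : a = x
    · by_cases hb : b = x
      · subst ha; subst hb
        simp [adj_irrefl]
      · subst ha
        rw [if_neg hb, if_pos rfl, if_pos rfl, if_neg hb]
        split_ifs <;> ring
    · by_cases hb : b = x
      · subst hb
        rw [if_neg ha, if_pos rfl, if_neg ha, if_pos rfl]
        by_cases hab : Adj a.1 b.1
        · rw [if_pos hab, if_pos hab, if_pos ((adj_symm _ _).mp hab)]; ring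
        · rw [if_neg hab, if_neg hab, if_neg (fun h => hab ((adj_symm _ _).mp h))]; ring
      · rw [if_neg ha, if_neg hb, if_neg ha, if_neg hb]; simp
  simp_rw [h1]
  simp_rw [Finset.sum_add_distrib]
  have h2 : ∑ a : Λ, ∑ b : Λ, (if a = x then t * (if Adj x.1 b.1 then w b else 0) else 0) =
      t * ∑ y : Λ, (if Adj x.1 y.1 then w y else 0) := by
    rw [Finset.sum_comm]
    simp only [Finset.sum_ite_eq', Finset.mem_univ, if_true]
    rw [Finset.mul_sum]
  have h3 : ∑ a : Λ, ∑ b : Λ, (if b = x then t * (if Adj x.1 a.1 then w a else 0) else 0) =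
      t * ∑ y : Λ, (if Adj x.1 y.1 then w y else 0) := by
    simp only [Finset.sum_ite_eq', Finset.mem_univ, if_true]
    rw [Finset.mul_sum]
  have h4 : ∑ a : Λ, (outside Λ a.1 : ℝ) * (w a + if a = x then t else 0) =
      ∑ a : Λ, (outside Λ a.1 : ℝ) * w a + t * outside Λ x.1 := by
    simp_rw [mul_add]
    rw [Finset.sum_add_distrib]
    congr 1
    simp only [mul_ite, mul_zero, Finset.sum_ite_eq', Finset.mem_univ, if_true]
    ring
  rw [h2, h3, h4]
  ring

theorem interaction_update (Λ : Finset (Fin d → ℤ)) (σ : Λ → ℤˣ) (x : Λ) :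
    ∃ R : ℝ, ∀ s : ℤˣ, interaction Λ (Function.update σ x s) =
      R + ((s : ℤ) : ℝ) * field Λ x σ := by
  let w : Λ → ℝ := fun a => if a = x then 0 else ((σ a : ℤ) : ℝ)
  refine ⟨quad Λ w, fun s => ?_⟩
  have h1 : interaction Λ (Function.update σ x s) =
      quad Λ (fun a => w a + if a = x then ((s : ℤ) : ℝ) else 0) := by
    have e : ∀ a : Λ, ((Function.update σ x s a : ℤ) : ℝ) =
        w a + if a = x then ((s : ℤ) : ℝ) else 0 := by
      intro a
      by_cases ha : a = x
      · subst ha; simp [w]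
      · simp [w, ha]
    unfold interaction quad
    simp_rw [e]
  rw [h1, quad_update Λ w x _ (by simp [w])]
  unfold field
  have h2 : ∑ y : Λ, (if Adj x.1 y.1 then w y else 0) =
      ∑ y : Λ, (if Adj x.1 y.1 then ((σ y : ℤ) : ℝ) else 0) := by
    refine Finset.sum_congr rfl fun y _ => ?_
    by_cases hy : y = x
    · subst hy; simp [adj_irrefl]
    · simp [w, hy]
  rw [h2]

theorem rate_eq (Λ : Finset (Fin d → ℤ)) (β : ℝ) (x : Λ) (σ : Λ → ℤˣ) (s : ℤˣ) :
    rate Λ β x σ s = Real.exp (β * (((s : ℤ) : ℝ) * field Λ x σ)) /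
      ∑ r : ℤˣ, Real.exp (β * (((r : ℤ) : ℝ) * field Λ x σ)) := by
  obtain ⟨R, hR⟩ := interaction_update Λ σ x
  unfold rate ising
  have h1 : ∀ r : ℤˣ, Real.exp (β * interaction Λ (Function.update σ x r)) =
      Real.exp (β * R) * Real.exp (β * (((r : ℤ) : ℝ) * field Λ x σ)) := by
    intro r
    rw [hR, ← Real.exp_add]; congr 1; ring
  rw [← Finset.sum_div, div_div_div_cancel_right₀
    (Finset.sum_pos (fun _ _ => Real.exp_pos _) Finset.univ_nonempty).ne']
  simp_rw [h1]
  rw [← Finset.mul_sum, mul_div_mul_left _ _ (Real.exp_pos _).ne']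

theorem field_update (Λ : Finset (Fin d → ℤ)) (x y : Λ) (σ : Λ → ℤˣ) (s : ℤˣ)
    (h : ¬ Adj x.1 y.1) : field Λ x (Function.update σ y s) = field Λ x σ := by
  unfold field
  congr 1
  refine Finset.sum_congr rfl fun z _ => ?_
  by_cases hz : z = y
  · subst hz; rw [if_neg h, if_neg h]
  · rw [Function.update_of_ne hz]

theorem field_neg (Λ : Finset (Fin d → ℤ)) (x : Λ) (σ : Λ → ℤˣ) (h : outside Λ x.1 = 0) :
    field Λ x (-σ) = -field Λ x σ := by
  unfold field
  rw [h]
  simp only [Nat.cast_zero, add_zero]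
  rw [← Finset.sum_neg_distrib]
  refine Finset.sum_congr rfl fun z _ => ?_
  simp only [Pi.neg_apply, Units.val_neg, Int.cast_neg]
  split_ifs <;> simp

theorem rates (Λ : Finset (Fin d → ℤ)) (β : ℝ) :
    Rates (rate Λ β) (fun x y : Λ => Adj x.1 y.1) where
  nonneg x σ s := (rate_pos _ _ _ _ _).le
  sum x σ := rate_sum _ _ _ _
  loc x y σ s h := by
    funext r
    rw [rate_eq, rate_eq, field_update Λ x y σ s h]
  irr x := adj_irrefl _

theorem rate_flip (Λ : Finset (Fin d → ℤ)) (β : ℝ) (x : Λ) (h : outside Λ x.1 = 0) :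
    rate Λ β x = flip (rate Λ β) x := by
  funext σ s
  show rate Λ β x σ s = rate Λ β x (-σ) (-s)
  rw [rate_eq, rate_eq, field_neg Λ x σ h]
  have e : ∀ r : ℤˣ, ((((-r : ℤˣ) : ℤ)) : ℝ) * -field Λ x σ = ((r : ℤ) : ℝ) * field Λ x σ := by
    intro r; simp only [Units.val_neg, Int.cast_neg]; ring
  rw [e]
  congr 1
  rw [← Pool.Agent.Helper580.IsingDyn.sum_neg
    (fun r : ℤˣ => Real.exp (β * (((r : ℤ) : ℝ) * -field Λ x σ)))]
  refine Finset.sum_congr rfl fun r _ => ?_
  rw [e]

/-- the matrix acts on functions as the heat bath operator -/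
theorem glauber_sum (Λ : Finset (Fin d → ℤ)) (β : ℝ) (f : (Λ → ℤˣ) → ℝ) (σ : Λ → ℤˣ) :
    ∑ η, glauber Λ β σ η * f η = hb (rate Λ β) f σ := by
  classical
  unfold glauber Pool.Agent.Helper580.IsingDyn.hb
  simp_rw [div_mul_eq_mul_div]
  rw [← Finset.sum_div, Fintype.card_coe]
  congr 1
  simp_rw [Finset.sum_mul]
  rw [Finset.sum_comm]
  refine Finset.sum_congr rfl fun x _ => ?_
  have h1 : ∀ η : Λ → ℤˣ, (if ∀ y, y ≠ x → η y = σ y then
      ising Λ β η / ∑ s : ℤˣ, ising Λ β (Function.update σ x s) else 0) * f η =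
      if ∀ y, y ≠ x → η y = σ y then
        ising Λ β η / (∑ s : ℤˣ, ising Λ β (Function.update σ x s)) * f η else 0 := by
    intro η; split_ifs <;> simp
  rw [Finset.sum_congr rfl (fun η _ => h1 η), ← Finset.sum_filter]
  symm
  refine Finset.sum_nbij' (fun s => Function.update σ x s) (fun η => η x) ?_ ?_ ?_ ?_ ?_
  · intro s _
    rw [Finset.mem_filter]
    exact ⟨Finset.mem_univ _, fun y hy => Function.update_of_ne hy _ _⟩
  · intro η _; exact Finset.mem_univ _
  · intro s _; simp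
  · intro η hη
    rw [Finset.mem_filter] at hη
    funext y
    by_cases hy : y = x
    · subst hy; simp
    · rw [Function.update_of_ne hy]; exact (hη.2 y hy).symm
  · intro s _; rfl

theorem glauber_iter (Λ : Finset (Fin d → ℤ)) (β : ℝ) (f : (Λ → ℤˣ) → ℝ) (t : ℕ) :
    (glauber Λ β ^ t) *ᵥ f = (hb (rate Λ β))^[t] f := by
  induction t with
  | zero => simp
  | succ t ih =>
    rw [pow_succ', ← Matrix.mulVec_mulVec, ih, Function.iterate_succ_apply']
    funext σ
    exact glauber_sum Λ β _ σ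

theorem glauber_nonneg (Λ : Finset (Fin d → ℤ)) (β : ℝ) (σ η : Λ → ℤˣ) :
    0 ≤ glauber Λ β σ η := by
  unfold glauber
  apply div_nonneg _ (Nat.cast_nonneg _)
  apply Finset.sum_nonneg
  intro x _
  split_ifs
  · exact div_nonneg (ising_pos _ _ _).le (rate_den_pos _ _ _ _).le
  · exact le_refl _

theorem glauber_row (Λ : Finset (Fin d → ℤ)) (hΛ : Λ.Nonempty) (β : ℝ) (σ : Λ → ℤˣ) :
    ∑ η, glauber Λ β σ η = 1 := by
  have h := glauber_sum Λ β (fun _ => 1) σ
  simp only [mul_one] at h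
  rw [h]
  unfold Pool.Agent.Helper580.IsingDyn.hb
  simp only [mul_one, rate_sum, Finset.sum_const, Finset.card_univ, nsmul_eq_mul]
  have : Nonempty Λ := hΛ.to_subtype
  exact div_self (by exact_mod_cast Fintype.card_pos.ne')

/-- detailed balance -/
theorem glauber_balance (Λ : Finset (Fin d → ℤ)) (β : ℝ) (σ η : Λ → ℤˣ) :
    ising Λ β σ * glauber Λ β σ η = ising Λ β η * glauber Λ β η σ := by
  unfold glauber
  rw [mul_div_assoc', mul_div_assoc', Finset.mul_sum, Finset.mul_sum]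
  congr 1
  refine Finset.sum_congr rfl fun x _ => ?_
  by_cases h : ∀ y, y ≠ x → η y = σ y
  · rw [if_pos h, if_pos (fun y hy => (h y hy).symm)]
    have : ∀ s : ℤˣ, Function.update σ x s = Function.update η x s := by
      intro s
      funext y
      by_cases hy : y = x
      · subst hy; simp
      · rw [Function.update_of_ne hy, Function.update_of_ne hy, h y hy]
    simp_rw [this]
    ring
  · rw [if_neg h, if_neg (fun h' => h (fun y hy => (h' y hy).symm))]
    simp

theorem glauber_stat (Λ : Finset (Fin d → ℤ)) (hΛ : Λ.Nonempty) (β : ℝ) :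
    ising Λ β ᵥ* glauber Λ β = ising Λ β := by
  funext η
  simp only [Matrix.vecMul, dotProduct]
  simp_rw [glauber_balance Λ β _ η]
  rw [← Finset.mul_sum, glauber_row Λ hΛ β η, mul_one]

theorem glauber_move (Λ : Finset (Fin d → ℤ)) (β : ℝ) (σ : Λ → ℤˣ) (x : Λ) (s : ℤˣ) :
    0 < glauber Λ β σ (Function.update σ x s) := by
  unfold glauber
  have hc : 0 < Λ.card := Finset.card_pos.mpr ⟨x.1, x.2⟩
  apply div_pos _ (by exact_mod_cast hc)
  refine lt_of_lt_of_le ?_ (Finset.single_le_sum (s := Finset.univ) (a := x) (f := fun z : Λ =>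
    if ∀ y, y ≠ z → Function.update σ x s y = σ y then
      ising Λ β (Function.update σ x s) / ∑ r : ℤˣ, ising Λ β (Function.update σ z r) else 0)
    (fun z _ => ?_) (Finset.mem_univ x))
  · rw [if_pos (fun y hy => Function.update_of_ne hy _ _)]
    exact div_pos (ising_pos _ _ _) (rate_den_pos _ _ _ _)
  · split_ifs
    · exact div_nonneg (ising_pos _ _ _).le (rate_den_pos _ _ _ _).le
    · exact le_refl _

theorem unif_sum (Λ : Finset (Fin d → ℤ)) : ∑ σ, unif Λ σ = 1 := by
  unfold unif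
  rw [Finset.sum_const, Finset.card_univ, nsmul_eq_mul, Fintype.card_fun, Fintype.card_coe,
    Fintype.card_units_int]
  push_cast
  rw [← mul_pow]; norm_num

/-- the chain converges, so that the mixing time is an infimum of a nonempty set -/
theorem tmix_set_nonempty (Λ : Finset (Fin d → ℤ)) (hΛ : Λ.Nonempty) (β : ℝ)
    (ν : (Λ → ℤˣ) → ℝ) (hν : ∑ σ, ν σ = 1) :
    {t : ℕ | tv (ν ᵥ* glauber Λ β ^ t) (ising Λ β) ≤ 1 / 4}.Nonempty := by
  classical
  have hpos : ∀ a b, 0 < (glauber Λ β ^ (Finset.univ : Finset Λ).card) a b := fun a b =>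
    Pool.Agent.Helper580.IsingConv.irred (glauber Λ β) (glauber_nonneg Λ β)
      (glauber_move Λ β) Finset.univ a b (fun x hx => absurd (Finset.mem_univ x) hx)
  obtain ⟨t, ht⟩ := Pool.Agent.Helper580.IsingConv.exists_close (glauber Λ β) (ising Λ β)
    (glauber_row Λ hΛ β) (glauber_stat Λ hΛ β) (ising_sum Λ β) _ hpos ν hν
    (show (0 : ℝ) < 1 / 4 by norm_num)
  exact ⟨t, ht⟩

/-! ### the test function -/

theorem mag_eq (L : ℕ) (σ : box d L → ℤˣ) (B : Finset (Fin d → ℤ)) (hB : B ⊆ box d L) :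
    mag B (mset σ) = ∑ x : B, ((σ ⟨x.1, hB x.2⟩ : ℤ) : ℝ) := by
  unfold Pool.Agent.Helper580.IsingCheb.mag
  rw [← Finset.sum_coe_sort B]
  exact Finset.sum_congr rfl fun x _ => (spin_eq σ ⟨x.1, hB x.2⟩).symm

theorem bulk_sub (L : ℕ) : bulk d L ⊆ box d L := Pool.Agent.Helper580.IsingCheb.bulk_subset L

theorem mag_neg (L : ℕ) (σ : box d L → ℤˣ) :
    mag (bulk d L) (mset (-σ)) = -mag (bulk d L) (mset σ) := by
  rw [mag_eq L _ _ (bulk_sub L), mag_eq L _ _ (bulk_sub L), ← Finset.sum_neg_distrib]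
  refine Finset.sum_congr rfl fun x _ => ?_
  simp only [Pi.neg_apply, Units.val_neg, Int.cast_neg]

theorem mag_update (L : ℕ) (σ : box d L → ℤˣ) (x : box d L) (s : ℤˣ) (hx : x.1 ∉ bulk d L) :
    mag (bulk d L) (mset (Function.update σ x s)) = mag (bulk d L) (mset σ) := by
  rw [mag_eq L _ _ (bulk_sub L), mag_eq L _ _ (bulk_sub L)]
  refine Finset.sum_congr rfl fun y _ => ?_
  rw [Function.update_of_ne]
  intro h
  apply hx
  rw [← h]
  exact y.2

/-- indicator that the bulk magnetisation is positive -/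
noncomputable def test (d L : ℕ) (σ : box d L → ℤˣ) : ℝ :=
  if 0 < mag (bulk d L) (mset σ) then 1 else 0

theorem test_range (L : ℕ) (σ : box d L → ℤˣ) : 0 ≤ test d L σ ∧ test d L σ ≤ 1 := by
  unfold test; split_ifs <;> norm_num

theorem test_lip (L : ℕ) {φ : box d L → ℝ} (h0 : ∀ x, 0 ≤ φ x)
    (h1 : ∀ x : box d L, x.1 ∈ bulk d L → 1 ≤ φ x) : Lip φ (test d L) := by
  intro x s σ
  by_cases hx : x.1 ∈ bulk d L
  · have a := test_range L (Function.update σ x s)
    have b := test_range L σ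
    refine le_trans ?_ (h1 x hx)
    rw [abs_le]; constructor <;> linarith [a.1, a.2, b.1, b.2]
  · have : test d L (Function.update σ x s) = test d L σ := by
      unfold test; rw [mag_update L σ x s hx]
    rw [this, sub_self, abs_zero]
    exact h0 x

theorem exp_nbr (L : ℕ) {l : (Fin d → ℤ) → ℝ} (hl : ∀ x y, Adj x y → l x ≤ l y + 1)
    (y : box d L) : (∑ x : box d L, if Adj x.1 y.1 then Real.exp (l x.1) else 0) ≤
      (2 * d * Real.exp 1) * Real.exp (l y.1) := by
  classical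
  have h1 : (∑ x : box d L, if Adj x.1 y.1 then Real.exp (l x.1) else 0) ≤
      ∑ x : box d L, if Adj x.1 y.1 then Real.exp 1 * Real.exp (l y.1) else 0 := by
    refine Finset.sum_le_sum fun x _ => ?_
    split_ifs with h
    · rw [← Real.exp_add]
      apply Real.exp_le_exp.mpr
      have := hl _ _ h
      linarith
    · exact le_refl _
  refine h1.trans ?_
  rw [← Finset.sum_filter, Finset.sum_const, nsmul_eq_mul]
  have h2 : (Finset.univ.filter (fun x : box d L => Adj x.1 y.1)).card ≤ 2 * d := by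
    refine le_trans ?_ (card_nb_le y.1)
    apply Finset.card_le_card_of_injOn (fun x => x.1)
    · intro x hx
      have := (Finset.mem_filter.mp (Finset.mem_coe.mp hx)).2
      exact Finset.mem_coe.mpr ((adj_iff _ _).mp ((adj_symm _ _).mp this))
    · intro a _ b _ h; exact Subtype.ext h
  have h3 : ((Finset.univ.filter (fun x : box d L => Adj x.1 y.1)).card : ℝ) ≤ 2 * d := by
    exact_mod_cast h2
  calc _ ≤ (2 * d : ℝ) * (Real.exp 1 * Real.exp (l y.1)) := by gcongr
    _ = _ := by ring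

theorem iter_lip (L : ℕ) [Nonempty (box d L)] (β : ℝ) {l : (Fin d → ℤ) → ℝ}
    (hl : ∀ x y, Adj x y → l x ≤ l y + 1) (h1 : ∀ x ∈ bulk d L, 0 ≤ l x) (t : ℕ)
    (x : box d L) (s : ℤˣ) (σ : box d L → ℤˣ) :
    |(hb (rate (box d L) β))^[t] (test d L) (Function.update σ x s) -
      (hb (rate (box d L) β))^[t] (test d L) σ| ≤
      (1 + (2 * d * Real.exp 1) / Fintype.card (box d L)) ^ t * Real.exp (l x.1) := by
  have := Pool.Agent.Helper580.IsingDyn.lip_iter (rates (box d L) β)
    (φ := fun x : box d L => Real.exp (l x.1)) (fun x => (Real.exp_pos _).le)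
    (K := 2 * d * Real.exp 1) (by positivity) (fun y => exp_nbr L hl y)
    (test_lip L (fun x => (Real.exp_pos _).le) (fun x hx => Real.one_le_exp (h1 x.1 hx))) t
  exact this x s σ

theorem adj_coord {x y : Fin d → ℤ} (h : Adj x y) (i : Fin d) : |x i - y i| ≤ 1 := by
  have h2 : |x i - y i| ≤ ∑ j, |x j - y j| :=
    Finset.single_le_sum (f := fun j => |x j - y j|) (fun j _ => abs_nonneg _) (Finset.mem_univ i)
  unfold Adj at h
  rw [h] at h2; exact h2

/-- sites with a neighbour outside the box lie on a face -/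
theorem face (L : ℕ) (x : box d L) (hx : outside (box d L) x.1 ≠ 0) :
    ∃ i, x.1 i = 1 ∨ x.1 i = L := by
  rw [outside_eq] at hx
  obtain ⟨y, hy⟩ := Finset.card_pos.mp (Nat.pos_of_ne_zero hx)
  rw [Finset.mem_sdiff] at hy
  by_contra hcon
  push Not at hcon
  apply hy.2
  have hxb := Pool.Agent.Helper580.IsingLat.mem_box.mp x.2
  apply Pool.Agent.Helper580.IsingLat.mem_box.mpr
  intro i
  have h1 := hxb i
  have h2 := hcon i
  have h3 := adj_coord ((adj_iff _ _).mpr hy.1) i
  rw [abs_le] at h3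
  constructor <;> omega

theorem bd_lip (L : ℕ) [Nonempty (box d L)] (β : ℝ) (t : ℕ) (x : box d L)
    (hx : outside (box d L) x.1 ≠ 0) (s : ℤˣ) (σ : box d L → ℤˣ) :
    |(hb (rate (box d L) β))^[t] (test d L) (Function.update σ x s) -
      (hb (rate (box d L) β))^[t] (test d L) σ| ≤
      (1 + (2 * d * Real.exp 1) / Fintype.card (box d L)) ^ t * Real.exp (1 - L / 4) := by
  obtain ⟨i, hi | hi⟩ := face L x hx
  · have h := iter_lip L β (l := fun y => (y i : ℝ) - L / 4) (by
      intro a b hab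
      have := adj_coord hab i
      rw [abs_le] at this
      have h2 : (a i : ℝ) ≤ (b i : ℝ) + 1 := by
        have : a i ≤ b i + 1 := by omega
        exact_mod_cast this
      linarith) (by
      intro a ha
      have := (Pool.Agent.Helper580.IsingCheb.mem_bulk.mp ha i).1
      have h2 : (L : ℝ) ≤ 4 * (a i : ℝ) := by
        have : (L : ℤ) ≤ 4 * a i := by omega
        exact_mod_cast this
      linarith) t x s σ
    simp only [hi] at h
    push_cast at h
    exact h
  · have h := iter_lip L β (l := fun y => (L : ℝ) + 1 - (y i : ℝ) - L / 4) (by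
      intro a b hab
      have := adj_coord hab i
      rw [abs_le] at this
      have h2 : (b i : ℝ) ≤ (a i : ℝ) + 1 := by
        have : b i ≤ a i + 1 := by omega
        exact_mod_cast this
      linarith) (by
      intro a ha
      have := (Pool.Agent.Helper580.IsingCheb.mem_bulk.mp ha i).2
      have h2 : 4 * (a i : ℝ) ≤ 3 * L := by
        have : 4 * a i ≤ 3 * L := by omega
        exact_mod_cast this
      linarith) t x s σ
    simp only [hi] at h
    push_cast at h
    have e : (L : ℝ) + 1 - L - L / 4 = 1 - L / 4 := by ring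
    rw [e] at h
    exact h

/-- finite speed: the flipped dynamics gives nearly the same answer -/
theorem flip_close (L : ℕ) [Nonempty (box d L)] (β : ℝ) (t : ℕ) (σ : box d L → ℤˣ) :
    |(hb (rate (box d L) β))^[t] (test d L) σ -
      (hb (flip (rate (box d L) β)))^[t] (test d L) σ| ≤
      t * ((1 + (2 * d * Real.exp 1) / Fintype.card (box d L)) ^ t * Real.exp (1 - L / 4)) := by
  classical
  apply Pool.Agent.Helper580.IsingDyn.iter_diff (rates (box d L) β)
    (Pool.Agent.Helper580.IsingDyn.flip_rates (rates (box d L) β))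
    (Finset.univ.filter fun x : box d L => outside (box d L) x.1 ≠ 0)
  · intro x hx
    apply rate_flip
    by_contra h
    exact hx (Finset.mem_filter.mpr ⟨Finset.mem_univ _, h⟩)
  · have : (0 : ℝ) ≤ (2 * d * Real.exp 1) / Fintype.card (box d L) := by positivity
    linarith
  · exact (Real.exp_pos _).le
  · intro t x hx s σ
    exact bd_lip L β t x (Finset.mem_filter.mp hx).2 s σ

/-- under the dynamics started from independent uniform spins, the bulk magnetisation is positive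
with probability at most about one half -/
theorem random_start (L : ℕ) [Nonempty (box d L)] (β : ℝ) (t : ℕ) :
    2 * ∑ η, (unif (box d L) ᵥ* glauber (box d L) β ^ t) η * test d L η ≤
      1 + t * ((1 + (2 * d * Real.exp 1) / Fintype.card (box d L)) ^ t *
        Real.exp (1 - L / 4)) := by
  classical
  set Λ := box d L with hΛ
  set ε : ℝ := t * ((1 + (2 * d * Real.exp 1) / Fintype.card Λ) ^ t * Real.exp (1 - L / 4))
    with hε
  have hne : Λ.Nonempty := by
    obtain ⟨x⟩ := ‹Nonempty (box d L)›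
    exact ⟨x.1, x.2⟩
  have key : ∀ f : (Λ → ℤˣ) → ℝ, ∑ η, (unif Λ ᵥ* glauber Λ β ^ t) η * f η =
      ∑ σ, unif Λ σ * (hb (rate Λ β))^[t] f σ := by
    intro f
    rw [← glauber_iter]
    exact (Matrix.dotProduct_mulVec _ _ _).symm
  have hnn : ∀ η, 0 ≤ (unif Λ ᵥ* glauber Λ β ^ t) η := by
    intro η
    simp only [Matrix.vecMul, dotProduct]
    apply Finset.sum_nonneg
    intro σ _
    exact mul_nonneg (by unfold unif; positivity)
      (Pool.Agent.Helper580.IsingConv.pow_nonneg' _ (glauber_nonneg Λ β) _ _ _)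
  have hsum : ∑ η, (unif Λ ᵥ* glauber Λ β ^ t) η = 1 := by
    rw [Pool.Agent.Helper580.IsingConv.sum_vecMul _
      (Pool.Agent.Helper580.IsingConv.row_sum_pow _ (glauber_row Λ hne β) t), unif_sum]
  have h1 : ∑ η, (unif Λ ᵥ* glauber Λ β ^ t) η * test d L η +
      ∑ η, (unif Λ ᵥ* glauber Λ β ^ t) η * test d L (-η) ≤ 1 := by
    rw [← Finset.sum_add_distrib, ← hsum]
    refine Finset.sum_le_sum fun η _ => ?_
    have h2 : test d L η + test d L (-η) ≤ 1 := by
      unfold test
      rw [mag_neg]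
      split_ifs with a b <;> linarith
    have h3 := hnn η
    nlinarith
  have h2 : ∑ η, (unif Λ ᵥ* glauber Λ β ^ t) η * test d L (-η) =
      ∑ σ, unif Λ σ * (hb (flip (rate Λ β)))^[t] (test d L) σ := by
    rw [key (fun η => test d L (-η))]
    rw [← Equiv.sum_comp (Equiv.neg (Λ → ℤˣ))]
    refine Finset.sum_congr rfl fun σ _ => ?_
    simp only [Equiv.neg_apply]
    rw [Pool.Agent.Helper580.IsingDyn.iter_flip]
    rfl
  have h3 : ∑ η, (unif Λ ᵥ* glauber Λ β ^ t) η * test d L η ≤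
      ∑ η, (unif Λ ᵥ* glauber Λ β ^ t) η * test d L (-η) + ε := by
    rw [h2, key (test d L)]
    have h4 : ε = ∑ σ, unif Λ σ * ε := by rw [← Finset.sum_mul, unif_sum, one_mul]
    rw [h4, ← Finset.sum_add_distrib]
    refine Finset.sum_le_sum fun σ _ => ?_
    have h5 := (abs_le.mp (flip_close L β t σ)).2
    rw [← mul_add]
    apply mul_le_mul_of_nonneg_left _ (by unfold unif; positivity)
    linarith
  linarith

/-- the equilibrium bulk magnetisation is positive with probability close to one -/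
theorem equilibrium (hd : 2 ≤ d) {β : ℝ} (hβ : betaC d < β) : ∃ L₀ : ℕ, ∀ L ≥ L₀,
    7 / 8 ≤ ∑ σ, ising (box d L) β σ * test d L σ := by
  have hβ0 : 0 ≤ β := (betaC_nonneg d).trans hβ.le
  obtain ⟨L₀, h⟩ := Pool.Agent.Helper580.IsingCheb.bulk_mag hβ0 (spontaneous_pos hd hβ)
    (by omega)
  refine ⟨L₀, fun L hL => ?_⟩
  have h1 := h L hL
  have h2 : ∑ σ, ising (box d L) β σ * test d L σ = 1 -
      ∑ S ∈ (box d L).powerset.filter (fun S => mag (bulk d L) S ≤ 0), pr (box d L) β S := by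
    have e1 : ∑ σ, ising (box d L) β σ * test d L σ =
        ∑ S ∈ (box d L).powerset, pr (box d L) β S * (if 0 < mag (bulk d L) S then 1 else 0) := by
      rw [← sum_config (box d L)
        (fun S => pr (box d L) β S * (if 0 < mag (bulk d L) S then 1 else 0))]
      refine Finset.sum_congr rfl fun σ _ => ?_
      rw [ising_eq]; rfl
    rw [e1, Finset.sum_filter, eq_sub_iff_add_eq, ← Finset.sum_add_distrib]
    refine (Finset.sum_congr rfl fun S _ => ?_).trans
      (Pool.Agent.Helper580.IsingCheb.pr_sum (box d L) β)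
    by_cases hS : 0 < mag (bulk d L) S
    · rw [if_pos hS, if_neg (not_le.mpr hS)]; ring
    · rw [if_neg hS, if_pos (not_lt.mp hS)]; ring
  rw [h2]
  have h3 : ∑ S ∈ (box d L).powerset.filter (fun S => mag (bulk d L) S ≤ 0),
      pr (box d L) β S ≤ 1 / 8 := h1
  linarith

theorem tv_ge {Ω : Type*} [Fintype Ω] (μ ν f : Ω → ℝ) (hμ : ∑ ω, μ ω = 1) (hν : ∑ ω, ν ω = 1)
    (hf : ∀ ω, 0 ≤ f ω ∧ f ω ≤ 1) : ∑ ω, ν ω * f ω - ∑ ω, μ ω * f ω ≤ tv μ ν := by
  have h1 : ∑ ω, ν ω * f ω - ∑ ω, μ ω * f ω = ∑ ω, (ν ω - μ ω) * (f ω - 1 / 2) := by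
    have : ∀ ω, (ν ω - μ ω) * (f ω - 1 / 2) =
        (ν ω * f ω - μ ω * f ω) - (1 / 2) * (ν ω - μ ω) := by intro ω; ring
    simp_rw [this]
    rw [Finset.sum_sub_distrib, Finset.sum_sub_distrib, ← Finset.mul_sum, Finset.sum_sub_distrib,
      hμ, hν]
    ring
  rw [h1]
  unfold tv
  rw [Finset.sum_div]
  refine Finset.sum_le_sum fun ω _ => ?_
  have h2 : |f ω - 1 / 2| ≤ 1 / 2 := by
    rw [abs_le]; constructor <;> linarith [(hf ω).1, (hf ω).2]
  calc (ν ω - μ ω) * (f ω - 1 / 2) ≤ |(ν ω - μ ω) * (f ω - 1 / 2)| := le_abs_self _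
    _ = |μ ω - ν ω| * |f ω - 1 / 2| := by rw [abs_mul, abs_sub_comm]
    _ ≤ |μ ω - ν ω| * (1 / 2) := by gcongr
    _ = _ := by ring

theorem error_small (d : ℕ) (c : ℝ) : ∃ L₀ : ℕ, ∀ L : ℕ, L₀ ≤ L →
    c * L * (L : ℝ) ^ d * (Real.exp (L / 8) * Real.exp (1 - L / 4)) ≤ 1 / 8 := by
  have h1 := Real.tendsto_pow_mul_exp_neg_atTop_nhds_zero (d + 1)
  have h2 : Filter.Tendsto (fun L : ℕ => (L : ℝ) / 8) Filter.atTop Filter.atTop :=
    Filter.Tendsto.atTop_div_const (by norm_num) tendsto_natCast_atTop_atTop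
  have h3 := (h1.comp h2).const_mul (c * 8 ^ (d + 1) * Real.exp 1)
  rw [mul_zero] at h3
  have h4 := h3.eventually (gt_mem_nhds (show (0 : ℝ) < 1 / 8 by norm_num))
  obtain ⟨L₀, hL₀⟩ := Filter.eventually_atTop.mp h4
  refine ⟨L₀, fun L hL => ?_⟩
  have h5 := hL₀ L hL
  simp only [Function.comp] at h5
  refine le_trans (le_of_eq ?_) h5.le
  have e1 : Real.exp (L / 8) * Real.exp (1 - L / 4) = Real.exp 1 * Real.exp (-(L / 8)) := by
    rw [← Real.exp_add, ← Real.exp_add]; congr 1; ring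
  rw [e1, div_pow]
  field_simp
  ring

/-- Quantitative statement: below a constant times `L · L^d` steps the chain started from
independent uniform spins is at distance more than `1/4` from equilibrium. -/
theorem far (hd : 2 ≤ d) {β : ℝ} (hβ : betaC d < β) : ∃ c : ℝ, 0 < c ∧ ∃ L₀ : ℕ, ∀ L ≥ L₀,
    ∀ t : ℕ, (t : ℝ) ≤ c * L * (L : ℝ) ^ d →
      1 / 4 < tv (unif (box d L) ᵥ* glauber (box d L) β ^ t) (ising (box d L) β) := by
  have hd0 : (0 : ℝ) < d := by
    have : 0 < d := by omega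
    exact_mod_cast this
  set c : ℝ := 1 / (16 * d * Real.exp 1) with hc
  have hc0 : 0 < c := by positivity
  obtain ⟨L₁, h1⟩ := equilibrium hd hβ
  obtain ⟨L₂, h2⟩ := error_small d c
  refine ⟨c, hc0, max (max L₁ L₂) 1, fun L hL t ht => ?_⟩
  have hL1 : L₁ ≤ L := le_trans ((le_max_left _ _).trans (le_max_left _ _)) hL
  have hL2 : L₂ ≤ L := le_trans ((le_max_right _ _).trans (le_max_left _ _)) hL
  have hL3 : 1 ≤ L := le_trans (le_max_right _ _) hL
  have hcardN : (box d L).card = L ^ d := Pool.Agent.Helper580.IsingLat.card_box L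
  have hne : (box d L).Nonempty := by
    rw [← Finset.card_pos, hcardN]
    exact pow_pos (by omega) d
  have : Nonempty (box d L) := hne.to_subtype
  have hcard : (Fintype.card (box d L) : ℝ) = (L : ℝ) ^ d := by
    rw [Fintype.card_coe, hcardN]; push_cast; rfl
  have hLpos : (0 : ℝ) < L := by exact_mod_cast hL3
  have hn : (0 : ℝ) < (L : ℝ) ^ d := by positivity
  have hr := random_start (d := d) L β t
  rw [hcard] at hr
  have hpow : (1 + (2 * d * Real.exp 1) / (L : ℝ) ^ d) ^ t ≤ Real.exp (L / 8) := by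
    calc (1 + (2 * d * Real.exp 1) / (L : ℝ) ^ d) ^ t
        ≤ (Real.exp ((2 * d * Real.exp 1) / (L : ℝ) ^ d)) ^ t := by
          apply pow_le_pow_left₀ (by positivity)
          rw [add_comm]; exact Real.add_one_le_exp _
      _ = Real.exp (t * ((2 * d * Real.exp 1) / (L : ℝ) ^ d)) := by rw [← Real.exp_nat_mul]
      _ ≤ Real.exp (L / 8) := by
          apply Real.exp_le_exp.mpr
          calc (t : ℝ) * ((2 * d * Real.exp 1) / (L : ℝ) ^ d)
              ≤ (c * L * (L : ℝ) ^ d) * ((2 * d * Real.exp 1) / (L : ℝ) ^ d) := by gcongr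
            _ = L / 8 := by
                rw [hc]; field_simp; ring
  have herr : (t : ℝ) * ((1 + (2 * d * Real.exp 1) / (L : ℝ) ^ d) ^ t * Real.exp (1 - L / 4)) ≤
      1 / 8 := by
    refine le_trans ?_ (h2 L hL2)
    gcongr
  have hsum : ∑ η, (unif (box d L) ᵥ* glauber (box d L) β ^ t) η = 1 := by
    rw [Pool.Agent.Helper580.IsingConv.sum_vecMul _
      (Pool.Agent.Helper580.IsingConv.row_sum_pow _ (glauber_row (box d L) hne β) t), unif_sum]
  have htv := tv_ge (unif (box d L) ᵥ* glauber (box d L) β ^ t) (ising (box d L) β) (test d L)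
    hsum (ising_sum _ _) (test_range L)
  have heq := h1 L hL1
  linarith

/-- **Main result.** For every `d ≥ 2` and every inverse temperature above the critical one, the
mixing time from independent uniform spins is at least a constant times `L · n`, `n = L^d`; in
particular it is not bounded by a constant times `n log n`. -/
theorem result (d : ℕ) (hd : 2 ≤ d) (β : ℝ) (hβ : betaC d < β) :
    (∃ c : ℝ, 0 < c ∧ ∃ L₀ : ℕ, ∀ L : ℕ, L₀ ≤ L →
      c * L * (L : ℝ) ^ d ≤ tmix (box d L) β (unif (box d L))) ∧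
    ¬ ∃ C : ℝ, ∀ L : ℕ, 2 ≤ L →
      (tmix (box d L) β (unif (box d L)) : ℝ) ≤ C * ((L : ℝ) ^ d * Real.log ((L : ℝ) ^ d)) := by
  have hmain : ∃ c : ℝ, 0 < c ∧ ∃ L₀ : ℕ, ∀ L : ℕ, L₀ ≤ L →
      c * L * (L : ℝ) ^ d ≤ tmix (box d L) β (unif (box d L)) := by
    obtain ⟨c, hc, L₀, h⟩ := far hd hβ
    refine ⟨c, hc, max L₀ 1, fun L hL => ?_⟩
    have hL0 : L₀ ≤ L := le_trans (le_max_left _ _) hL
    have hL1 : 1 ≤ L := le_trans (le_max_right _ _) hL
    have hne : (box d L).Nonempty := by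
      rw [← Finset.card_pos, show (box d L).card = L ^ d from
        Pool.Agent.Helper580.IsingLat.card_box L]
      exact pow_pos (by omega) d
    by_contra hlt
    push Not at hlt
    have hmem := Nat.sInf_mem (tmix_set_nonempty (box d L) hne β (unif (box d L)) (unif_sum _))
    have := h L hL0 (tmix (box d L) β (unif (box d L))) hlt.le
    exact absurd hmem (not_le.mpr this)
  refine ⟨hmain, ?_⟩
  rintro ⟨C, hC⟩
  obtain ⟨c, hc, L₀, h⟩ := hmain
  have hd0 : (0 : ℝ) < d := by
    have : 0 < d := by omega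
    exact_mod_cast this
  -- for large L: c L ≤ C d log L is impossible
  have hlog : Filter.Tendsto (fun x : ℝ => Real.log x / x) Filter.atTop (nhds 0) := by
    have := Real.isLittleO_log_id_atTop.tendsto_div_nhds_zero
    simpa using this
  have h2 := (hlog.comp tendsto_natCast_atTop_atTop).const_mul (|C| * d)
  rw [mul_zero] at h2
  have h3 := h2.eventually (gt_mem_nhds hc)
  obtain ⟨L₁, hL₁⟩ := Filter.eventually_atTop.mp h3
  set L := max (max L₀ L₁) 2 with hL
  have hLa : L₀ ≤ L := (le_max_left _ _).trans (le_max_left _ _)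
  have hLb : L₁ ≤ L := (le_max_right _ _).trans (le_max_left _ _)
  have hLc : 2 ≤ L := le_max_right _ _
  have hLpos : (0 : ℝ) < L := by
    have : 0 < L := by omega
    exact_mod_cast this
  have hn : (0 : ℝ) < (L : ℝ) ^ d := by positivity
  have e1 := h L hLa
  have e2 := hC L hLc
  have e3 := hL₁ L hLb
  simp only [Function.comp] at e3
  have hlogL : 0 ≤ Real.log L := Real.log_nonneg (by
    have : 1 ≤ L := by omega
    exact_mod_cast this)
  rw [Real.log_pow] at e2
  have e4 : c * L * (L : ℝ) ^ d ≤ (|C| * d * Real.log L) * (L : ℝ) ^ d := by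
    calc c * L * (L : ℝ) ^ d ≤ C * ((L : ℝ) ^ d * (d * Real.log L)) := e1.trans e2
      _ ≤ |C| * ((L : ℝ) ^ d * (d * Real.log L)) := by
          apply mul_le_mul_of_nonneg_right (le_abs_self C)
          positivity
      _ = _ := by ring
  have e5 : c * L ≤ |C| * d * Real.log L := le_of_mul_le_mul_right e4 hn
  have e6 : |C| * d * (Real.log L / L) < c := e3
  have e7 : |C| * d * Real.log L < c * L := by
    have : |C| * d * (Real.log L / L) * L < c * L := mul_lt_mul_of_pos_right e6 hLpos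
    have e8 : |C| * d * (Real.log L / L) * L = |C| * d * Real.log L := by field_simp
    rw [e8] at this; exact this
  linarith

end Pool.Agent.Results.MP_4cb49c_pr.RandomStart
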